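import Pool.Agent.helper34.Toep6

set_option autoImplicit false

/-!
# Finite-rank self-commutators of hyponormal block Toeplitz operators

Full positive answer.  `E` is any finite-dimensional complex Hilbert space, for example `ℂⁿ`.

Sketch of the proof (`Pool/Agent/helper34/Toep1.lean` to `Toep6.lean`).
Write `C = [T_Φ^*, T_Φ] ≥ 0`, of finite rank `r`, as `C = J^* J` with `J : H² → ℂ^r` onto.
Since `z^k f → 0` weakly, comparing `⟨C z^k f, z^k f⟩ → 0` with the Fourier expansion gives
`‖Φ f‖ = ‖Φ^* f‖` on `H²`, hence `‖J f‖² = ∑_{k<0} (‖(Φ^* f)_k‖² - ‖(Φ f)_k‖²)` and therefore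
`‖J f‖² + ‖(Φ f)_{-1}‖² = ‖J (z f)‖² + ‖(Φ^* f)_{-1}‖²` for all `f ∈ H²`.
This gives a unitary on the finite-dimensional space `ℂ^r ⊕ E` (lurking isometry).  An eigenvector
of the compression of its inverse to `ℂ^r` splits off one elementary factor
`b_λ Q + (I - Q)`, `rank Q = 1`, and replaces `r` by `r - 1`.  By induction one gets a
Blaschke–Potapov product `B` with exactly `r` rank one factors and `(Φ f)_{-1} = (B Φ^* f)_{-1}` for
all `f ∈ H²`, that is `Φ - B Φ^* ∈ H^∞`.
-/

open MeasureTheory AddCircle Complex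
open scoped ENNReal
open Pool.Agent.helper34.BTS

namespace Pool.Agent.Results.MP_a5aa7c_an.FiniteRank

/-- Let `E` be a finite-dimensional complex Hilbert space (for example `ℂⁿ`). For every
`Φ ∈ L^∞(𝕋; B(E))` such that `T_Φ` is hyponormal and its self-commutator has finite rank, there is a
finite Blaschke–Potapov product `B ∈ 𝓔(Φ)` whose degree `deg (det B)` equals the rank of the
self-commutator. -/
theorem result {E : Type} [NormedAddCommGroup E] [InnerProductSpace ℂ E] [CompleteSpace E]
    [FiniteDimensional ℂ E] (Φ : UnitAddCircle → (E →L[ℂ] E)) (hΦ : MemLp Φ ∞ μ)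
    (hyp : Hyponormal (toeplitz Φ hΦ))
    (hfin : FiniteRank (selfComm (toeplitz Φ hΦ))) :
    ∃ B : ℂ → (E →L[ℂ] E), IsBlaschkePotapov B ∧
      (fun t : UnitAddCircle => B (toCircle t)) ∈ EE Φ ∧
      rank (selfComm (toeplitz Φ hΦ)) = degDet B :=
  final Φ hΦ hyp hfin

end Pool.Agent.Results.MP_a5aa7c_an.FiniteRank
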